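import Mathlib

set_option autoImplicit false

/-!
# The game with partial open neighbourhood assignments

Definitions of the game `PONAG(X)` and of total paracompactness, and the fact that Alice has no winning
strategy when Bob has one.
-/

namespace Pool.Agent.R327.PN

open Set

variable {X : Type*} [TopologicalSpace X]

/-- Total paracompactness: every base has a subfamily which is a locally finite cover. -/
def TotallyParacompact (X : Type*) [TopologicalSpace X] : Prop :=
  ∀ B : Set (Set X), TopologicalSpace.IsTopologicalBasis B →
    ∃ B' ⊆ B, ⋃₀ B' = univ ∧ LocallyFinite (fun b : B' => (b : Set X))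

/-- A partial open neighbourhood assignment `{V x : x ∈ Y}`. -/
structure Assignment (X : Type*) [TopologicalSpace X] where
  /-- the set of indices -/
  Y : Set X
  /-- the neighbourhoods -/
  V : X → Set X
  open_V : ∀ x ∈ Y, IsOpen (V x)
  mem_V : ∀ x ∈ Y, x ∈ V x

/-- The union `V_D` of the members of the assignment with index in `D`. -/
def Assignment.cov (a : Assignment X) (D : Set X) : Set X := ⋃ x ∈ D, a.V x

/-- A position (a finite play): the list of the moves of Alice and of Bob in the rounds played so far,
in this order. -/
abbrev Pos (X : Type*) [TopologicalSpace X] := List (Assignment X × Set X)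

/-- The part of the space which is not covered yet. -/
def rest (h : Pos X) : Set X := {x | ∀ p ∈ h, x ∉ p.1.cov p.2}

/-- Legal moves of Alice: the indices lie in the part which is not covered yet, and the members of the
assignment cover this part. -/
def LegalA (h : Pos X) (a : Assignment X) : Prop :=
  a.Y ⊆ rest h ∧ rest h ⊆ a.cov a.Y

/-- Legal moves of Bob: a set of indices which is closed and discrete in the space. -/
def LegalB (a : Assignment X) (D : Set X) : Prop :=
  D ⊆ a.Y ∧ IsClosed D ∧ DiscreteTopology D

/-- The position after `n` rounds of an infinite play. -/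
def pos (a : ℕ → Assignment X) (D : ℕ → Set X) (n : ℕ) : Pos X :=
  (List.range n).map fun k => (a k, D k)

/-- Bob wins a play when all the chosen sets together cover the space. -/
def BobWinsPlay (a : ℕ → Assignment X) (D : ℕ → Set X) : Prop :=
  ⋃ n, (a n).cov (D n) = univ

/-- A strategy for Bob: an answer to each position and each move of Alice. -/
abbrev StratB (X : Type*) [TopologicalSpace X] := Pos X → Assignment X → Set X

/-- A strategy for Alice: a move in each position. -/
abbrev StratA (X : Type*) [TopologicalSpace X] := Pos X → Assignment X

/-- A strategy of Bob is winning: in every play which follows it and in which the moves of Alice are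
legal, the moves of Bob are legal and Bob wins. -/
def StratB.Winning (σ : StratB X) : Prop :=
  ∀ (a : ℕ → Assignment X) (D : ℕ → Set X),
    (∀ n, D n = σ (pos a D n) (a n)) →
      (∀ n, (∀ k ≤ n, LegalA (pos a D k) (a k)) → LegalB (a n) (D n)) ∧
      ((∀ n, LegalA (pos a D n) (a n)) → BobWinsPlay a D)

/-- A strategy of Alice is winning: in every play which follows it and in which the moves of Bob are
legal, the moves of Alice are legal and Bob does not win. -/
def StratA.Winning (τ : StratA X) : Prop :=
  ∀ (a : ℕ → Assignment X) (D : ℕ → Set X),
    (∀ n, a n = τ (pos a D n)) →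
      (∀ n, (∀ k < n, LegalB (a k) (D k)) → LegalA (pos a D n) (a n)) ∧
      ((∀ n, LegalB (a n) (D n)) → ¬ BobWinsPlay a D)

/-- Bob has a winning strategy. -/
def BobHasWinning (X : Type*) [TopologicalSpace X] : Prop := ∃ σ : StratB X, σ.Winning

/-- Alice has a winning strategy. -/
def AliceHasWinning (X : Type*) [TopologicalSpace X] : Prop := ∃ τ : StratA X, τ.Winning

/-- The play in which both players follow their strategies: the position after `n` rounds. -/
noncomputable def both (σ : StratB X) (τ : StratA X) : ℕ → Pos X
  | 0 => []
  | n + 1 => both σ τ n ++ [(τ (both σ τ n), σ (both σ τ n) (τ (both σ τ n)))]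

theorem pos_succ (a : ℕ → Assignment X) (D : ℕ → Set X) (n : ℕ) :
    pos a D (n + 1) = pos a D n ++ [(a n, D n)] := by
  simp [pos, List.range_succ]

theorem both_eq (σ : StratB X) (τ : StratA X) (n : ℕ) :
    both σ τ n = pos (fun k => τ (both σ τ k)) (fun k => σ (both σ τ k) (τ (both σ τ k))) n := by
  induction n with
  | zero => simp [both, pos]
  | succ n ih =>
    rw [pos_succ, ← ih]
    rfl

/-- The two players cannot both have a winning strategy. -/
theorem not_alice_of_bob (h : BobHasWinning X) : ¬ AliceHasWinning X := by
  rintro ⟨τ, hτ⟩
  obtain ⟨σ, hσ⟩ := h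
  set a : ℕ → Assignment X := fun k => τ (both σ τ k) with ha
  set D : ℕ → Set X := fun k => σ (both σ τ k) (τ (both σ τ k)) with hD
  have hb : ∀ n, both σ τ n = pos a D n := both_eq σ τ
  have h1 := hσ a D (fun n => by rw [← hb])
  have h2 := hτ a D (fun n => by rw [← hb])
  have h3 : ∀ n, (∀ k < n, LegalB (a k) (D k)) := by
    intro n
    induction n with
    | zero => intro k hk; omega
    | succ n ih =>
      intro k hk
      rcases Nat.lt_succ_iff_lt_or_eq.1 hk with h | rfl
      · exact ih k h
      · refine h1.1 k fun m hm => h2.1 m fun l hl => ih l (by omega)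
  have h4 : ∀ n, LegalB (a n) (D n) := fun n => h3 (n + 1) n (by omega)
  exact h2.2 h4 (h1.2 fun n => h2.1 n (h3 n))

end Pool.Agent.R327.PN
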