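import Pool.Agent.R327.PN.Game

set_option autoImplicit false

/-!
# A space on which Bob wins in two innings and which is not totally paracompact
-/

namespace Pool.Agent.R327.PN

open Set Cardinal

/-- The points of the space: the reals, and the triples `(i, j, ξ)` of two reals and a set of reals. -/
inductive Sp : Type where
  | pt : ℝ → Sp
  | iso : ℝ → ℝ → Set ℝ → Sp

namespace Sp

/-- The basic neighbourhood of the point `i`. -/
def N (i : ℝ) (F : Set ℝ) (S : Set (Set ℝ)) : Set Sp :=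
  {x | x = pt i ∨ ∃ j ∉ F, ∃ ξ ∉ S, x = iso i j ξ ∨ x = iso j i ξ}

theorem N_mono {i : ℝ} {F F' : Set ℝ} {S S' : Set (Set ℝ)} (hF : F ⊆ F') (hS : S ⊆ S') :
    N i F' S' ⊆ N i F S := by
  rintro x (rfl | ⟨j, hj, ξ, hξ, h⟩)
  · exact Or.inl rfl
  · exact Or.inr ⟨j, fun h => hj (hF h), ξ, fun h => hξ (hS h), h⟩

theorem pt_mem_N {i : ℝ} {F : Set ℝ} {S : Set (Set ℝ)} : pt i ∈ N i F S := Or.inl rfl

theorem pt_mem_N_iff {i j : ℝ} {F : Set ℝ} {S : Set (Set ℝ)} : pt j ∈ N i F S ↔ j = i := by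
  constructor
  · rintro (h | ⟨k, _, ξ, _, h | h⟩)
    · exact Sp.pt.inj h
    · cases h
    · cases h
  · rintro rfl; exact Or.inl rfl

theorem iso_mem_N_iff {i a b : ℝ} {ξ : Set ℝ} {F : Set ℝ} {S : Set (Set ℝ)} :
    iso a b ξ ∈ N i F S ↔ ξ ∉ S ∧ ((a = i ∧ b ∉ F) ∨ (b = i ∧ a ∉ F)) := by
  constructor
  · rintro (h | ⟨k, hk, η, hη, h | h⟩)
    · cases h
    · obtain ⟨h1, h2, h3⟩ := Sp.iso.inj h
      subst h1 h2 h3
      exact ⟨hη, Or.inl ⟨rfl, hk⟩⟩
    · obtain ⟨h1, h2, h3⟩ := Sp.iso.inj h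
      subst h1 h2 h3
      exact ⟨hη, Or.inr ⟨rfl, hk⟩⟩
  · rintro ⟨hξ, ⟨rfl, hb⟩ | ⟨rfl, ha⟩⟩
    · exact Or.inr ⟨b, hb, ξ, hξ, Or.inl rfl⟩
    · exact Or.inr ⟨a, ha, ξ, hξ, Or.inr rfl⟩

theorem small_union {S S' : Set (Set ℝ)} (h : #S ≤ 𝔠) (h' : #S' ≤ 𝔠) : #(S ∪ S' : Set (Set ℝ)) ≤ 𝔠 :=
  (mk_union_le S S').trans (add_le_of_le aleph0_le_continuum h h')

/-- The topology. -/
instance : TopologicalSpace Sp where
  IsOpen U := ∀ i, pt i ∈ U → ∃ F : Set ℝ, F.Finite ∧ ∃ S : Set (Set ℝ), #S ≤ 𝔠 ∧ N i F S ⊆ U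
  isOpen_univ i _ := ⟨∅, finite_empty, ∅, by simp, subset_univ _⟩
  isOpen_inter U V hU hV i hi := by
    obtain ⟨F, hF, S, hS, h⟩ := hU i hi.1
    obtain ⟨F', hF', S', hS', h'⟩ := hV i hi.2
    exact ⟨F ∪ F', hF.union hF', S ∪ S', small_union hS hS',
      subset_inter ((N_mono subset_union_left subset_union_left).trans h)
        ((N_mono subset_union_right subset_union_right).trans h')⟩
  isOpen_sUnion 𝒰 h𝒰 i := by
    rintro ⟨U, hU, hi⟩
    obtain ⟨F, hF, S, hS, h⟩ := h𝒰 U hU i hi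
    exact ⟨F, hF, S, hS, h.trans (subset_sUnion_of_mem hU)⟩

theorem isOpen_iff {U : Set Sp} : IsOpen U ↔
    ∀ i, pt i ∈ U → ∃ F : Set ℝ, F.Finite ∧ ∃ S : Set (Set ℝ), #S ≤ 𝔠 ∧ N i F S ⊆ U := Iff.rfl

theorem isOpen_N {i : ℝ} {F : Set ℝ} {S : Set (Set ℝ)} (hF : F.Finite) (hS : #S ≤ 𝔠) :
    IsOpen (N i F S) := by
  intro j hj
  rw [pt_mem_N_iff] at hj
  subst hj
  exact ⟨F, hF, S, hS, Subset.rfl⟩

theorem isOpen_iso (a b : ℝ) (ξ : Set ℝ) : IsOpen ({iso a b ξ} : Set Sp) := by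
  intro j hj
  cases hj

theorem disj {i i' : ℝ} (h : i ≠ i') {F F' : Set ℝ} {S S' : Set (Set ℝ)} (hi : i ∈ F') :
    Disjoint (N i F S) (N i' F' S') := by
  rw [Set.disjoint_left]
  rintro (j | ⟨a, b, ξ⟩) h1 h2
  · rw [pt_mem_N_iff] at h1 h2
    exact h (h1.symm.trans h2)
  · rw [iso_mem_N_iff] at h1 h2
    rcases h1.2 with ⟨rfl, h3⟩ | ⟨rfl, h3⟩ <;> rcases h2.2 with ⟨h4, h5⟩ | ⟨h4, h5⟩
    · exact h h4
    · exact h5 hi
    · exact h5 hi
    · exact h h4

theorem isClosed_N {i : ℝ} {F : Set ℝ} {S : Set (Set ℝ)} : IsClosed (N i F S) := by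
  rw [← isOpen_compl_iff]
  intro j hj
  have hji : i ≠ j := fun h => hj (h ▸ pt_mem_N)
  refine ⟨{i}, finite_singleton i, ∅, by simp, ?_⟩
  exact (disj hji (mem_singleton i)).symm.subset_compl_right

theorem N_singleton_compl (i a b : ℝ) (ξ : Set ℝ) : iso a b ξ ∉ N i ∅ {ξ} := by
  rw [iso_mem_N_iff]
  simp

theorem mk_singleton_le (ξ : Set ℝ) : #({ξ} : Set (Set ℝ)) ≤ 𝔠 := by
  rw [mk_singleton]
  exact one_le_aleph0.trans aleph0_le_continuum

theorem isClosed_iso (a b : ℝ) (ξ : Set ℝ) : IsClosed ({iso a b ξ} : Set Sp) := by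
  rw [← isOpen_compl_iff]
  intro j _
  refine ⟨∅, finite_empty, {ξ}, mk_singleton_le ξ, ?_⟩
  intro x hx hx'
  rw [mem_singleton_iff] at hx'
  subst hx'
  exact N_singleton_compl j a b ξ hx

/-- The base of the `N i F S` and of the isolated points. -/
def base : Set (Set Sp) :=
  {U | (∃ i, ∃ F : Set ℝ, F.Finite ∧ ∃ S : Set (Set ℝ), #S ≤ 𝔠 ∧ U = N i F S) ∨
    ∃ a b ξ, U = {iso a b ξ}}

theorem isTopologicalBasis_base : TopologicalSpace.IsTopologicalBasis base := by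
  refine TopologicalSpace.isTopologicalBasis_of_isOpen_of_nhds ?_ ?_
  · rintro U (⟨i, F, hF, S, hS, rfl⟩ | ⟨a, b, ξ, rfl⟩)
    · exact isOpen_N hF hS
    · exact isOpen_iso a b ξ
  · rintro (i | ⟨a, b, ξ⟩) U hx hU
    · obtain ⟨F, hF, S, hS, h⟩ := hU i hx
      exact ⟨N i F S, Or.inl ⟨i, F, hF, S, hS, rfl⟩, pt_mem_N, h⟩
    · exact ⟨{iso a b ξ}, Or.inr ⟨a, b, ξ, rfl⟩, rfl, singleton_subset_iff.2 hx⟩

theorem isClosed_of_mem_base {U : Set Sp} (hU : U ∈ base) : IsClosed U := by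
  rcases hU with ⟨i, F, hF, S, hS, rfl⟩ | ⟨a, b, ξ, rfl⟩
  · exact isClosed_N
  · exact isClosed_iso a b ξ

instance : T2Space Sp := by
  constructor
  have key : ∀ (i a b : ℝ) (ξ : Set ℝ), ∃ u v : Set Sp, IsOpen u ∧ IsOpen v ∧ pt i ∈ u ∧
      iso a b ξ ∈ v ∧ Disjoint u v := by
    intro i a b ξ
    refine ⟨N i ∅ {ξ}, {iso a b ξ}, isOpen_N finite_empty (mk_singleton_le ξ), isOpen_iso a b ξ,
      pt_mem_N, rfl, ?_⟩
    rw [Set.disjoint_singleton_right]
    exact N_singleton_compl i a b ξ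
  rintro (i | ⟨a, b, ξ⟩) (i' | ⟨a', b', ξ'⟩) hne
  · have h : i ≠ i' := fun h => hne (h ▸ rfl)
    exact ⟨N i {i'} ∅, N i' {i} ∅, isOpen_N (finite_singleton _) (by simp),
      isOpen_N (finite_singleton _) (by simp), pt_mem_N, pt_mem_N, disj h (mem_singleton i)⟩
  · exact key i a' b' ξ'
  · obtain ⟨u, v, hu, hv, h1, h2, h3⟩ := key i' a b ξ
    exact ⟨v, u, hv, hu, h2, h1, h3.symm⟩
  · refine ⟨{iso a b ξ}, {iso a' b' ξ'}, isOpen_iso _ _ _, isOpen_iso _ _ _, rfl, rfl, ?_⟩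
    rw [Set.disjoint_singleton]
    exact hne

instance : RegularSpace Sp := by
  refine RegularSpace.of_exists_mem_nhds_isClosed_subset ?_
  intro x s hs
  obtain ⟨U, hU, hxU, hUs⟩ := isTopologicalBasis_base.mem_nhds_iff.1 hs
  exact ⟨U, (isTopologicalBasis_base.isOpen hU).mem_nhds hxU, isClosed_of_mem_base hU, hUs⟩

instance : Infinite Sp :=
  Infinite.of_injective pt fun _ _ h => Sp.pt.inj h

/-- Sets of cardinality at most `𝔠` are closed and discrete. -/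
theorem small_closed_discrete {A : Set Sp} (hA : #A ≤ 𝔠) : IsClosed A ∧ DiscreteTopology A := by
  set f : Sp → Set ℝ := fun x => match x with
    | pt _ => ∅
    | iso _ _ ξ => ξ with hf
  have hS : #(f '' A) ≤ 𝔠 := mk_image_le.trans hA
  have hN : ∀ i, N i ∅ (f '' A) ∩ A ⊆ {pt i} := by
    rintro i (j | ⟨a, b, ξ⟩) ⟨h1, h2⟩
    · rw [pt_mem_N_iff] at h1
      rw [h1]
      rfl
    · rw [iso_mem_N_iff] at h1
      exact absurd ⟨iso a b ξ, h2, rfl⟩ h1.1
  constructor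
  · rw [← isOpen_compl_iff]
    intro i hi
    refine ⟨∅, finite_empty, f '' A, hS, ?_⟩
    intro x hx hxA
    have := hN i ⟨hx, hxA⟩
    rw [mem_singleton_iff] at this
    exact hi (this ▸ hxA)
  · rw [discreteTopology_subtype_iff']
    rintro (i | ⟨a, b, ξ⟩) hx
    · refine ⟨N i ∅ (f '' A), isOpen_N finite_empty hS, ?_⟩
      exact Subset.antisymm (hN i) (singleton_subset_iff.2 ⟨pt_mem_N, hx⟩)
    · refine ⟨{iso a b ξ}, isOpen_iso a b ξ, ?_⟩
      exact inter_eq_left.2 (singleton_subset_iff.2 hx)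

/-- Subsets of the complement of an open set which contains all non-isolated points are closed and
discrete. -/
theorem closed_discrete_of_disjoint {V A : Set Sp} (hV : IsOpen V) (hV' : ∀ i, pt i ∈ V)
    (hA : Disjoint A V) : IsClosed A ∧ DiscreteTopology A := by
  constructor
  · rw [← isOpen_compl_iff]
    intro i _
    obtain ⟨F, hF, S, hS, h⟩ := hV i (hV' i)
    exact ⟨F, hF, S, hS, h.trans hA.subset_compl_left⟩
  · rw [discreteTopology_subtype_iff']
    rintro (i | ⟨a, b, ξ⟩) hx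
    · exact absurd (hV' i) (Set.disjoint_left.1 hA hx)
    · exact ⟨{iso a b ξ}, isOpen_iso a b ξ, inter_eq_left.2 (singleton_subset_iff.2 hx)⟩

/-- Bob's answer in round `0`. -/
noncomputable def D0 (a : Assignment Sp) : Set Sp :=
  open Classical in
  {x | ∃ i, ∃ h : ∃ y ∈ a.Y, pt i ∈ a.V y, x = h.choose}

theorem D0_subset (a : Assignment Sp) : D0 a ⊆ a.Y := by
  rintro x ⟨i, h, rfl⟩
  exact h.choose_spec.1

theorem pt_mem_cov (a : Assignment Sp) (i : ℝ) (h : ∃ y ∈ a.Y, pt i ∈ a.V y) :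
    pt i ∈ a.cov (D0 a) := by
  simp only [Assignment.cov, mem_iUnion]
  exact ⟨h.choose, ⟨i, h, rfl⟩, h.choose_spec.2⟩

theorem mk_D0 (a : Assignment Sp) : #(D0 a) ≤ 𝔠 := by
  classical
  have h1 : D0 a ⊆ range (fun i : ℝ => if h : ∃ y ∈ a.Y, pt i ∈ a.V y then h.choose else pt 0) := by
    rintro x ⟨i, h, rfl⟩
    exact ⟨i, by simp only [h, dif_pos]⟩
  refine (mk_le_mk_of_subset h1).trans (mk_range_le.trans ?_)
  rw [mk_real]

/-- Bob's strategy. -/
noncomputable def strat : StratB Sp := fun h a => if h = [] then D0 a else a.Y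

theorem isOpen_cov (a : Assignment Sp) {D : Set Sp} (hD : D ⊆ a.Y) : IsOpen (a.cov D) :=
  isOpen_biUnion fun x hx => a.open_V x (hD hx)

theorem strat_winning : (strat).Winning := by
  intro a D hD
  have hD0 : D 0 = D0 (a 0) := by
    rw [hD 0]; simp [strat, pos]
  have hDn : ∀ n, D (n + 1) = (a (n + 1)).Y := by
    intro n
    rw [hD (n + 1)]
    simp [strat, pos, List.range_succ]
  have hpos : ∀ n, (a 0, D 0) ∈ pos a D (n + 1) := by
    intro n
    simp only [pos, List.mem_map, List.mem_range]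
    exact ⟨0, by omega, rfl⟩
  have hcov : LegalA (pos a D 0) (a 0) → ∀ i, pt i ∈ (a 0).cov (D 0) := by
    intro h0 i
    have : pt i ∈ rest (pos a D 0) := by simp [rest, pos]
    have h1 := h0.2 this
    simp only [Assignment.cov, mem_iUnion] at h1
    obtain ⟨y, hy, h2⟩ := h1
    rw [hD0]
    exact pt_mem_cov (a 0) i ⟨y, hy, h2⟩
  have hsub0 : D 0 ⊆ (a 0).Y := by rw [hD0]; exact D0_subset _
  refine ⟨?_, ?_⟩
  · intro n hn
    rcases Nat.eq_zero_or_pos n with rfl | hpos'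
    · have := small_closed_discrete (mk_D0 (a 0))
      rw [← hD0] at this
      exact ⟨hsub0, this.1, this.2⟩
    · obtain ⟨m, rfl⟩ : ∃ m, n = m + 1 := ⟨n - 1, by omega⟩
      rw [hDn m]
      refine ⟨Subset.rfl, ?_⟩
      refine closed_discrete_of_disjoint (isOpen_cov (a 0) hsub0) (hcov (hn 0 (by omega))) ?_
      rw [Set.disjoint_left]
      intro x hx
      exact ((hn (m + 1) le_rfl).1 hx) _ (hpos m)
  · intro hn
    rw [BobWinsPlay, Set.eq_univ_iff_forall]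
    intro x
    by_cases hx : x ∈ (a 0).cov (D 0)
    · exact mem_iUnion.2 ⟨0, hx⟩
    · refine mem_iUnion.2 ⟨1, ?_⟩
      have h1 : x ∈ rest (pos a D 1) := by
        intro p hp
        simp only [pos, List.range_one, List.map_cons, List.map_nil, List.mem_singleton] at hp
        subst hp
        exact hx
      have h2 := (hn 1).2 h1
      rw [hDn 0]
      exact h2

theorem bobHasWinning : BobHasWinning Sp := ⟨strat, strat_winning⟩

theorem not_totallyParacompact : ¬ TotallyParacompact Sp := by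
  intro h
  obtain ⟨B, hB, hcov, hlf⟩ := h base isTopologicalBasis_base
  -- members containing the points
  have h1 : ∀ i : ℝ, ∃ F : Set ℝ, F.Finite ∧ ∃ S : Set (Set ℝ), #S ≤ 𝔠 ∧ N i F S ∈ B := by
    intro i
    have h2 : pt i ∈ ⋃₀ B := by rw [hcov]; trivial
    obtain ⟨U, hU, hi⟩ := h2
    rcases hB hU with ⟨j, F, hF, S, hS, rfl⟩ | ⟨a, b, ξ, rfl⟩
    · rw [pt_mem_N_iff] at hi
      subst hi
      exact ⟨F, hF, S, hS, hU⟩
    · cases hi
  choose F hF S hS hNB using h1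
  -- for each i, all but finitely many j satisfy i ∈ F j
  have h3 : ∀ i : ℝ, {j : ℝ | i ∉ F j}.Finite := by
    intro i
    obtain ⟨U, hU, hfin⟩ := hlf (pt i)
    obtain ⟨V, hV, hVo, hiV⟩ := mem_nhds_iff.1 hU
    obtain ⟨F₀, hF₀, S₀, hS₀, hsub⟩ := hVo i hiV
    have hfin2 : (F₀ ∪ {j : ℝ | i ∉ F j ∧ j ∉ F₀}).Finite := by
      refine hF₀.union ?_
      refine Set.Finite.of_finite_image (f := fun j => (⟨N j (F j) (S j), hNB j⟩ : B)) ?_ ?_
      · refine hfin.subset ?_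
        rintro _ ⟨j, ⟨hj1, hj2⟩, rfl⟩
        have hne : ∃ ξ : Set ℝ, ξ ∉ S₀ ∪ S j := by
          by_contra hcon
          push Not at hcon
          have h5 : (S₀ ∪ S j) = Set.univ := Set.eq_univ_iff_forall.2 hcon
          have h6 := small_union hS₀ (hS j)
          rw [h5, mk_univ, mk_set, mk_real] at h6
          exact absurd h6 (not_le.2 (cantor 𝔠))
        obtain ⟨ξ, hξ⟩ := hne
        rw [mem_union, not_or] at hξ
        refine ⟨iso i j ξ, ?_, ?_⟩
        · change iso i j ξ ∈ N j (F j) (S j)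
          rw [iso_mem_N_iff]
          exact ⟨hξ.2, Or.inr ⟨rfl, hj1⟩⟩
        · apply hV
          apply hsub
          rw [iso_mem_N_iff]
          exact ⟨hξ.1, Or.inl ⟨rfl, hj2⟩⟩
      · intro j _ k _ hjk
        have h7 : N j (F j) (S j) = N k (F k) (S k) := congrArg Subtype.val hjk
        have h8 : pt j ∈ N k (F k) (S k) := h7 ▸ pt_mem_N
        rwa [pt_mem_N_iff] at h8
    refine hfin2.subset ?_
    intro j hj
    by_cases hj2 : j ∈ F₀
    · exact Or.inl hj2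
    · exact Or.inr ⟨hj, hj2⟩
  -- a countable union of finite sets
  have h4 : (⋃ n : ℕ, {j : ℝ | (n : ℝ) ∉ F j}).Countable :=
    countable_iUnion fun n => (h3 n).countable
  have h5 : ∃ j : ℝ, j ∉ ⋃ n : ℕ, {j : ℝ | (n : ℝ) ∉ F j} := by
    by_contra hcon
    push Not at hcon
    have h6 : (⋃ n : ℕ, {j : ℝ | (n : ℝ) ∉ F j}) = Set.univ := Set.eq_univ_iff_forall.2 hcon
    rw [h6] at h4
    exact Cardinal.not_countable_real h4
  obtain ⟨j, hj⟩ := h5
  simp only [mem_iUnion, mem_ofPred_eq, not_exists, not_not] at hj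
  have h7 : (range (fun n : ℕ => (n : ℝ))).Infinite := Set.infinite_range_of_injective Nat.cast_injective
  exact h7 ((hF j).subset (by rintro _ ⟨n, rfl⟩; exact hj n))

end Sp

end Pool.Agent.R327.PN
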